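import Pool.Agent.H58.FN.Targets

/-!
# Row GLU of the board `fnc_modules`: gluing of two closed cochains
-/

set_option autoImplicit false

namespace Pool.Agent.H35.FN

open Pool.Agent.H59 Pool.Agent.H48.FR Pool.Agent.H58.FL Pool.Agent.H30.FA Pool.Agent.H58.FM
open Pool.Agent.H58.FN

theorem pf_GLU : T_GLU := by
  classical
  intro X K P Q hPQ hD g₄ g₆ η θ₄ θ₆ μ h4 h6 hd i4 i6 hμ
  set e : X → X → ℝ := fun x y => if (P x ∧ Q x) ∧ (P y ∧ Q y) then η x y else 0 with he
  set m : X → ℝ := fun x => if P x ∧ Q x then μ x else 0 with hm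
  set c : X → X → X → ℝ := fun x y z =>
    if P x ∧ P y ∧ P z then g₄ x y z else g₆ x y z + d1 e x y z with hc
  set θ : X → X → ℝ := fun x y =>
    if P x ∧ P y then θ₄ x y else θ₆ x y + 64 * e x y - (m y - m x) with hθ
  have hcP : ∀ S ∈ K, (∀ u ∈ S, P u) → ∀ x ∈ S, ∀ y ∈ S, ∀ z ∈ S, c x y z = g₄ x y z := by
    intro S _ hP x hx y hy z hz
    simp only [hc]
    rw [if_pos ⟨hP x hx, hP y hy, hP z hz⟩]
  have hcQ : ∀ S ∈ K, (∀ u ∈ S, Q u) → ∀ x ∈ S, ∀ y ∈ S, ∀ z ∈ S,
      c x y z = g₆ x y z + d1 e x y z := by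
    intro S hS hQ x hx y hy z hz
    by_cases hp : P x ∧ P y ∧ P z
    · have e1 : e y z = η y z := by
        simp only [he]
        rw [if_pos ⟨⟨hp.2.1, hQ y hy⟩, ⟨hp.2.2, hQ z hz⟩⟩]
      have e2 : e x z = η x z := by
        simp only [he]
        rw [if_pos ⟨⟨hp.1, hQ x hx⟩, ⟨hp.2.2, hQ z hz⟩⟩]
      have e3 : e x y = η x y := by
        simp only [he]
        rw [if_pos ⟨⟨hp.1, hQ x hx⟩, ⟨hp.2.1, hQ y hy⟩⟩]
      have hT : ({x, y, z} : Set X) ∈ K := by
        refine hD S hS _ ?_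
        intro u hu
        simp only [Set.mem_insert_iff, Set.mem_singleton_iff] at hu
        rcases hu with rfl | rfl | rfl <;> assumption
      have h := hd {x, y, z} hT (by
        intro u hu
        simp only [Set.mem_insert_iff, Set.mem_singleton_iff] at hu
        rcases hu with rfl | rfl | rfl
        · exact ⟨hp.1, hQ _ hx⟩
        · exact ⟨hp.2.1, hQ _ hy⟩
        · exact ⟨hp.2.2, hQ _ hz⟩) x (by simp) y (by simp) z (by simp)
      simp only [hc]
      rw [if_pos hp]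
      unfold d1 at h ⊢
      rw [e1, e2, e3]
      linarith
    · simp only [hc]
      rw [if_neg hp]
  have hθQ : ∀ S ∈ K, (∀ u ∈ S, Q u) → ∀ x ∈ S, ∀ y ∈ S, ∃ j : ℤ,
      θ x y = θ₆ x y + 64 * e x y - (m y - m x) + j := by
    intro S hS hQ x hx y hy
    by_cases hp : P x ∧ P y
    · have e3 : e x y = η x y := by
        simp only [he]
        rw [if_pos ⟨⟨hp.1, hQ x hx⟩, ⟨hp.2, hQ y hy⟩⟩]
      have m1 : m x = μ x := by
        simp only [hm]
        rw [if_pos ⟨hp.1, hQ x hx⟩]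
      have m2 : m y = μ y := by
        simp only [hm]
        rw [if_pos ⟨hp.2, hQ y hy⟩]
      have hT : ({x, y} : Set X) ∈ K := by
        refine hD S hS _ ?_
        intro u hu
        simp only [Set.mem_insert_iff, Set.mem_singleton_iff] at hu
        rcases hu with rfl | rfl <;> assumption
      obtain ⟨j, hj⟩ := hμ {x, y} hT (by
        intro u hu
        simp only [Set.mem_insert_iff, Set.mem_singleton_iff] at hu
        rcases hu with rfl | rfl
        · exact ⟨hp.1, hQ _ hx⟩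
        · exact ⟨hp.2, hQ _ hy⟩) x (by simp) y (by simp)
      refine ⟨j, ?_⟩
      have : θ x y = θ₄ x y := by
        simp only [hθ]
        rw [if_pos hp]
      rw [this, e3, m1, m2]
      linarith
    · refine ⟨0, ?_⟩
      have : θ x y = θ₆ x y + 64 * e x y - (m y - m x) := by
        simp only [hθ]
        rw [if_neg hp]
      rw [this]
      simp
  refine ⟨c, e, θ, ?_, hcP, hcQ, ?_⟩
  · intro S hS x hx y hy z hz w hw
    rcases hPQ S hS with hP | hQ
    · have h := h4 S hS hP x hx y hy z hz w hw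
      unfold d2 at h ⊢
      rw [hcP S hS hP y hy z hz w hw, hcP S hS hP x hx z hz w hw, hcP S hS hP x hx y hy w hw,
        hcP S hS hP x hx y hy z hz]
      exact h
    · have h := h6 S hS hQ x hx y hy z hz w hw
      unfold d2 at h ⊢
      rw [hcQ S hS hQ y hy z hz w hw, hcQ S hS hQ x hx z hz w hw, hcQ S hS hQ x hx y hy w hw,
        hcQ S hS hQ x hx y hy z hz]
      unfold d1
      linarith
  · intro S hS x hx y hy z hz
    rcases hPQ S hS with hP | hQ
    · obtain ⟨j, hj⟩ := i4 S hS hP x hx y hy z hz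
      refine ⟨j, ?_⟩
      have t : ∀ a ∈ S, ∀ b ∈ S, θ a b = θ₄ a b := by
        intro a ha b hb
        simp only [hθ]
        rw [if_pos ⟨hP a ha, hP b hb⟩]
      unfold d1 at hj ⊢
      rw [hcP S hS hP x hx y hy z hz, t y hy z hz, t x hx z hz, t x hx y hy]
      exact hj
    · obtain ⟨j, hj⟩ := i6 S hS hQ x hx y hy z hz
      obtain ⟨j₁, hj₁⟩ := hθQ S hS hQ y hy z hz
      obtain ⟨j₂, hj₂⟩ := hθQ S hS hQ x hx z hz
      obtain ⟨j₃, hj₃⟩ := hθQ S hS hQ x hx y hy
      refine ⟨j - j₁ + j₂ - j₃, ?_⟩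
      rw [hcQ S hS hQ x hx y hy z hz]
      unfold d1 at hj ⊢
      rw [hj₁, hj₂, hj₃]
      push_cast
      linarith

end Pool.Agent.H35.FN
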